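import Pool.Agent.R241.DL7

/-! MP_a57f33_nt: relations between the coefficients of an element of the double shuffle Lie algebra
at the words with the fewest letters `x₀`. -/

set_option autoImplicit false

namespace Pool.Agent.Results.MP_a57f33_nt.LowestLetterPart

open Pool.Agent.H777R4.DM

/-- The word `x₁^{a₀} x₀ x₁^{a₁} ⋯ x₀ x₁^{a_m}` of the list `[a₀, …, a_m]`. -/
def word : List ℕ → List (Fin 2)
  | [] => []
  | [a] => List.replicate a 1
  | a :: b :: l => List.replicate a 1 ++ 0 :: word (b :: l)

/-- The sum of `F` over all shuffles of two lists. -/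
def shuffle : List ℕ → List ℕ → (List ℕ → ℚ) → ℚ
  | [], v, F => F v
  | u, [], F => F u
  | a :: u, b :: v, F =>
    shuffle u (b :: v) (fun t => F (a :: t)) + shuffle (a :: u) v (fun t => F (b :: t))

theorem word_eq (L : List ℕ) : word L = Pool.Agent.R241.DL.blk L := by
  induction L with
  | nil => rfl
  | cons a L ih =>
    cases L with
    | nil => rfl
    | cons b L => rw [word, Pool.Agent.R241.DL.blk, ih]

theorem shuffle_eq (n : ℕ) : ∀ (u v : List ℕ), u.length + v.length = n → ∀ F : List ℕ → ℚ,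
    shuffle u v F = Pool.Agent.R241.DL.shuf u v F := by
  induction n with
  | zero =>
    intro u v h F
    have h1 : u = [] := List.length_eq_zero_iff.1 (by omega)
    have h2 : v = [] := List.length_eq_zero_iff.1 (by omega)
    rw [h1, h2]
    simp [shuffle, Pool.Agent.R241.DL.shuf]
  | succ n ih =>
    intro u v h F
    cases u with
    | nil => cases v <;> simp [shuffle, Pool.Agent.R241.DL.shuf]
    | cons a u =>
      cases v with
      | nil => simp [shuffle, Pool.Agent.R241.DL.shuf]
      | cons b v =>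
        rw [shuffle, Pool.Agent.R241.DL.shuf, ih u (b :: v) (by simp at h ⊢; omega),
          ih (a :: u) v (by simp at h ⊢; omega)]

/-- Let `m ≥ 2`, let `ψ ∈ dm₀` be homogeneous of weight `N` with at least `m` letters `x₀` in each
word, and let `G(a₀, …, a_m)` be the coefficient of the word `x₁^{a₀} x₀ x₁^{a₁} ⋯ x₀ x₁^{a_m}`.
1. `G` is invariant under cyclic permutations of its `m + 1` arguments.
2. Reversing the order of the arguments multiplies `G` by `(-1)^{N+1}`.
3. For fixed `a₀`, `G` is killed by the shuffles of one argument with the `m - 1` others.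
4. If `m ≤ 3`, or if `m ≤ 5` and `N ≡ m (mod 2)`, then for fixed `a₀` it is killed by the shuffles of
any two nonempty lists. -/
theorem result (ψ : A) (N m : ℕ) (hψ : IsDM ψ) (h2 : 2 ≤ m)
    (h : ∀ u, co ψ u ≠ 0 → u.length = N ∧ m ≤ u.count 0) :
    (∀ (L : List ℕ) (t : ℕ), L.length = m + 1 → co ψ (word (L.rotate t)) = co ψ (word L)) ∧
    (∀ L : List ℕ, co ψ (word L.reverse) = (-1) ^ (N + 1) * co ψ (word L)) ∧
    (∀ (a b : ℕ) (v : List ℕ), v.length + 1 = m →
      shuffle [b] v (fun w => co ψ (word (a :: w))) = 0) ∧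
    ((m ≤ 3 ∨ (m ≤ 5 ∧ Even (N + m))) → ∀ (a : ℕ) (u v : List ℕ), u ≠ [] → v ≠ [] →
      u.length + v.length = m → shuffle u v (fun w => co ψ (word (a :: w))) = 0) := by
  have hN : LenHom ψ N := fun u hu => (h u hu).1
  have hm : ∀ u, co ψ u ≠ 0 → m ≤ u.count 0 := fun u hu => (h u hu).2
  refine ⟨fun L t hL => ?_, fun L => ?_, fun a b v hv => ?_, fun h5 a u v hu hv huv => ?_⟩
  · rw [word_eq, word_eq]
    exact Pool.Agent.R241.DL.blk_rot hψ hN hm h2 t L hL
  · rw [word_eq, word_eq]
    exact Pool.Agent.R241.DL.blk_rev hψ hN L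
  · rw [shuffle_eq _ _ _ rfl]
    simp only [word_eq]
    exact Pool.Agent.R241.DL.one_general hψ hN hm h2 a b v hv
  · rw [shuffle_eq _ _ _ rfl]
    simp only [word_eq]
    exact Pool.Agent.R241.DL.all_five hψ hN hm h2 h5 a u v hu hv huv

end Pool.Agent.Results.MP_a57f33_nt.LowestLetterPart
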