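import Mathlib
import Pool.Agent.R390.MZ.Prop

set_option autoImplicit false

/-!
# Motivic relations that do not follow from double shuffle: none, or a positive proportion

Let `D_p` be the dimension of the part of weight `p` of `H^0` modulo the regularized double shuffle
elements, and `d_p` the dimension of the space of motivic multiple zeta values of weight `p`, so that
`D_p - d_p` is the number of the independent motivic relations of weight `p` modulo the double
shuffle relations.  Either `D_p = d_p` for all `p` (Q1), or there is `n` with `D_p = d_p` for `p < n`,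
`D_p ≥ d_p + d_(p-n)` for all `p` and `D_p ≥ (1 + 2^(-n)) d_p` for all `p ≥ n + 2`.
-/

open Pool.Agent.R390.MZ

namespace Pool.Agent.Results.MP_a57f33_nt.ProportionLaw

/-- Let `fdim p` be the dimension of the part of weight `p` of `H^0` modulo the span of the
regularized double shuffle elements. Let `σ` be a set with weights `wt` and `τ` a subset such that,
for all `p`, there are `fdim p` monomials of weight `p` in the variables from `σ`, and `d_p` of these
monomials contain only variables from `τ` (`d_0 = 1`, `d_1 = 0`, `d_2 = 1`,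
`d_p = d_(p-2) + d_(p-3)`). Then `fdim p = d_p` for all `p`, or there is `n ≥ 1` with `fdim p = d_p`
for all `p < n`, `fdim p ≥ d_p + d_(p-n)` for all `p` (`d_j = 0` for `j < 0`), and
`2 ^ n * fdim p ≥ (2 ^ n + 1) * d_p` for all `p ≥ n + 2`. -/
theorem result {σ : Type} (wt : σ → ℕ) (τ : Set σ)
    (hσ : ∀ p, {m : σ →₀ ℕ | Finsupp.weight wt m = p}.encard = fdim p)
    (hτ : ∀ p, {m : σ →₀ ℕ | Finsupp.weight wt m = p ∧ ∀ s ∈ m.support, s ∈ τ}.encard = dz p) :
    (∀ p, fdim p = dz p) ∨ ∃ n, 1 ≤ n ∧ (∀ p < n, fdim p = dz p) ∧
      (∀ p, dz p + sh dz n p ≤ fdim p) ∧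
      ∀ p, n + 2 ≤ p → (2 ^ n + 1) * dz p ≤ 2 ^ n * fdim p :=
  proportion hσ τ hτ

end Pool.Agent.Results.MP_a57f33_nt.ProportionLaw
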